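import Mathlib
import Pool.Agent.CPT.StmtsA

set_option autoImplicit false

/-! Row CAP of the squad CPT: the capacity theorem. -/

namespace Pool.Agent.CPT.H65

open MvPolynomial Pool.Agent.BSH Pool.Agent.CPT

theorem cap (grd : GrdStmt) (sbl : SblStmt) (aub : AubStmt) : CapStmt := by
  intro E _ _ n s θ F hθ hF hs
  obtain ⟨c, hc, k, ρ, hρ, hne, hind⟩ := grd E n θ F hθ hF
  have h1 : IsCheapF E k s (aeval ρ F : MvPolynomial (Fin k) E) := by
    apply sbl E n k s F (aeval ρ) hs
    intro i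
    rw [aeval_X]
    unfold sp
    rcases hρ i with ⟨j, hj⟩ | ⟨e, he⟩
    · rw [hj]
      exact Submodule.subset_span (Or.inl (Or.inr ⟨j, rfl⟩))
    · rw [he]
      have h2 : (C e : MvPolynomial (Fin k) E) = e • 1 := by
        rw [smul_eq_C_mul, mul_one]
      rw [h2]
      exact Submodule.smul_mem _ _ (Submodule.subset_span (Or.inl (Or.inl rfl)))
  exact ⟨c, aub E k s _ (aeval ρ F) hne h1 hind, hc⟩

end Pool.Agent.CPT.H65
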