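import Mathlib
import Pool.Agent.CPT.StmtsC

set_option autoImplicit false

/-! Row GPM of the squad CPT: the polynomial of a circuit over a field, in `n` variables. -/

namespace Pool.Agent.CPT.H65

open MvPolynomial Pool.Agent.BSH Pool.Agent.CPT Pool.Agent.Helper78_ACIT

namespace GpmRow

/-- the output depends only on the variables which occur -/
theorem out_congr {A : Type} [CommRing A] {x y : ℕ → A} {G : List Gate}
    (h : ∀ v, Gate.var v ∈ G → x v = y v) : out x G = out y G := by
  have key : ∀ (G : List Gate) (acc : List A), (∀ v, Gate.var v ∈ G → x v = y v) →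
      G.foldl (fun vals g => vals ++ [g.value x vals]) acc =
        G.foldl (fun vals g => vals ++ [g.value y vals]) acc := by
    intro G
    induction G with
    | nil => intro acc _; rfl
    | cons g G ih =>
      intro acc h
      simp only [List.foldl_cons]
      have hg : g.value x acc = g.value y acc := by
        cases g with
        | zero => rfl
        | one => rfl
        | var j =>
          simp only [Gate.value]
          exact h j (List.mem_cons_self ..)
        | add a b => rfl
        | sub a b => rfl
        | mul a b => rfl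
      rw [hg]
      exact ih _ (fun v hv => h v (List.mem_cons_of_mem _ hv))
  unfold out values
  rw [key G [] h]

theorem gp_eq (E : Type) [Field E] (n : ℕ) (G : List Gate) :
    gp E n G = eval₂ (Int.castRingHom (MvPolynomial (Fin n) E))
      (fun i => if h : i < n then X ⟨i, h⟩ else 0) (poly G) := by
  unfold gp
  rw [out_eq_eval]

theorem deg_le (E : Type) [Field E] (n : ℕ) (G : List Gate) :
    (gp E n G).totalDegree ≤ (poly G).totalDegree := by
  rw [gp_eq, eval₂_eq]
  apply totalDegree_finsetSum_le
  intro d hd
  refine (totalDegree_mul _ _).trans ?_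
  have h1 : (Int.castRingHom (MvPolynomial (Fin n) E) (coeff d (poly G))).totalDegree = 0 := by
    have h2 : Int.castRingHom (MvPolynomial (Fin n) E) (coeff d (poly G)) =
        C ((coeff d (poly G) : ℤ) : E) := by
      simp
    rw [h2, totalDegree_C]
  rw [h1, Nat.zero_add]
  refine (totalDegree_finset_prod _ _).trans ?_
  refine le_trans ?_ (le_totalDegree hd)
  unfold Finsupp.sum
  apply Finset.sum_le_sum
  intro i _
  refine (totalDegree_pow _ _).trans ?_
  have h3 : (if h : i < n then X ⟨i, h⟩ else (0 : MvPolynomial (Fin n) E)).totalDegree ≤ 1 := by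
    by_cases h : i < n
    · rw [dif_pos h, totalDegree_X]
    · rw [dif_neg h, totalDegree_zero]
      omega
  calc d i * (if h : i < n then X ⟨i, h⟩ else (0 : MvPolynomial (Fin n) E)).totalDegree ≤
        d i * 1 := Nat.mul_le_mul_left _ h3
    _ = d i := Nat.mul_one _

theorem eval_gp (E : Type) [Field E] (n : ℕ) (G : List Gate) (hv : ∀ v, Gate.var v ∈ G → v < n)
    (x : ℕ → ℤ) : eval (fun i : Fin n => ((x i : ℤ) : E)) (gp E n G) = ((out x G : ℤ) : E) := by
  have h1 : ((out x G : ℤ) : E) = out (fun j => ((x j : ℤ) : E)) G :=
    out_map (Int.castRingHom E) x G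
  rw [h1]
  unfold gp
  rw [out_map (eval (fun i : Fin n => ((x i : ℤ) : E)))]
  apply out_congr
  intro v hvG
  rw [dif_pos (hv v hvG), eval_X]

end GpmRow

open GpmRow in
theorem gpm : GpmStmt := by
  intro E _ _ n G _ hv
  refine ⟨deg_le E n G, eval_gp E n G hv, ?_⟩
  intro hne h0
  apply hne
  apply MvPolynomial.funext
  intro x
  have h1 := eval_gp E n G hv x
  rw [h0, map_zero] at h1
  have h2 : out x G = 0 := by
    have h3 : ((out x G : ℤ) : E) = ((0 : ℤ) : E) := by
      rw [← h1]
      simp
    exact Int.cast_injective h3
  rw [out_eq_eval] at h2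
  rw [map_zero]
  exact h2

end Pool.Agent.CPT.H65
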